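import Mathlib

open Filter Topology MeasureTheory Complex Set Laplacian
open scoped ComplexConjugate

namespace Pool.Agent.Results.MP_784777_an.Main

/-- `v : ℂ → [-∞, ∞)` is subharmonic on the open set `G`: it is upper semicontinuous, and
`v(c) ≤ (1/2π) ∫ v(c + r e^{iθ}) dθ` for every closed disc in `G`. For an upper semicontinuous `v`
the integral is the infimum of the circle averages of continuous `φ ≥ v`, so the inequality is
written with continuous majorants. -/
def SubharmonicOn (v : ℂ → EReal) (G : Set ℂ) : Prop :=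
  UpperSemicontinuousOn v G ∧ (∀ z ∈ G, v z ≠ ⊤) ∧
  ∀ (c : ℂ) (r : ℝ), 0 < r → Metric.closedBall c r ⊆ G →
    ∀ φ : ℂ → ℝ, Continuous φ → (∀ z ∈ Metric.sphere c r, v z ≤ (φ z : EReal)) →
      v c ≤ ((Real.circleAverage φ c r : ℝ) : EReal)

/-- The class `U[ρ]`. -/
def InU (ρ : ℝ) (v : ℂ → EReal) : Prop :=
  SubharmonicOn v Set.univ ∧ v 0 = 0 ∧ ∃ σ : ℝ, 0 < σ ∧ ∀ z, v z ≤ ((σ * ‖z‖ ^ ρ : ℝ) : EReal)

/-- Minimal elements of `U[ρ]`. -/
def IsMinimalIn (ρ : ℝ) (v : ℂ → EReal) : Prop :=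
  InU ρ v ∧ ∀ ε : ℝ, 0 < ε → ¬ ∃ w, InU ρ w ∧ ∀ z, w z ≤ v z - ((ε * ‖z‖ ^ ρ : ℝ) : EReal)

/-- `H(v)`, the largest open set where `v` is harmonic. -/
def harmonicSet (v : ℂ → EReal) : Set ℂ :=
  {z | ∃ u : ℂ → ℝ, InnerProductSpace.HarmonicAt u z ∧ ∀ᶠ ζ in 𝓝 z, v ζ = (u ζ : EReal)}

/-- The preimage of `H(v)` under `x + iy ↦ e^{x+iy}`; subsets of the cylinder are represented by
`2πi`-periodic subsets of the plane. -/
def hatH (v : ℂ → EReal) : Set ℂ := {ζ | Complex.exp ζ ∈ harmonicSet v}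

/-- `L_λ r = e^{-λx} Δ (e^{λx} r)`. -/
noncomputable def Lop (l : ℝ) (r : ℂ → ℝ) (p : ℂ) : ℝ :=
  Real.exp (-(l * p.re)) * Δ (fun ζ : ℂ => Real.exp (l * ζ.re) * r ζ) p

/-- `q` is a regular boundary point of `D` (there is a barrier at `q`). -/
def IsRegularPt (D : Set ℂ) (q : ℂ) : Prop :=
  q ∈ frontier D ∧ ∃ N : Set ℂ, IsOpen N ∧ q ∈ N ∧ ∃ b : ℂ → EReal,
    SubharmonicOn b (D ∩ N) ∧ (∀ p ∈ D ∩ N, b p < 0) ∧ Tendsto b (𝓝[D] q) (𝓝 0)

/-- Problem (1) for the parameter `l` on the `2πi`-periodic open set `D`. -/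
def SolvesOne (l : ℝ) (D : Set ℂ) (r : ℂ → ℝ) : Prop :=
  (∀ p ∈ D, r (p + 2 * Real.pi * I) = r p) ∧ (∃ C : ℝ, ∀ p ∈ D, |r p| ≤ C) ∧
  (∀ p ∈ D, ContDiffAt ℝ 2 r p ∧ Lop l r p = 0) ∧
  ∀ q, IsRegularPt D q → Tendsto r (𝓝[D] q) (𝓝 0)

/-- `λ(D)`: the infimum of the `l > 0` for which (1) has a nontrivial solution (`+∞` if none). -/
noncomputable def lam (D : Set ℂ) : EReal :=
  sInf {x : EReal | ∃ l : ℝ, 0 < l ∧ x = (l : EReal) ∧
    ∃ r : ℂ → ℝ, SolvesOne l D r ∧ ∃ p ∈ D, r p ≠ 0}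

section general

variable {ι : Type*} (N : ℕ) (c : ι → ℝ) (a : ι → ℂ)

/-- One logarithmic majorant. -/
noncomputable def maj (i : ι) (x : ℝ) : ℝ := Real.log (1 + (x / ‖a i‖) ^ N)

/-- The total majorant. -/
noncomputable def Bt (x : ℝ) : ℝ := ∑' i, c i * maj N a i x

/-- The ratio `|1 - (z/a)^N| / (1 + |z/a|^N)`. -/
noncomputable def ratio (i : ι) (z : ℂ) : ℝ := ‖1 - (z / a i) ^ N‖ / (1 + (‖z‖ / ‖a i‖) ^ N)

/-- Exponential of the finite approximation. -/
noncomputable def gF (F : Finset ι) (z : ℂ) : ℝ :=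
  Real.exp (Bt N c a ‖z‖) * ∏ i ∈ F, (ratio N a i z) ^ (c i)

/-- Logarithm of a nonnegative real as an extended real. -/
noncomputable def elog (x : ℝ) : EReal := ENNReal.log (ENNReal.ofReal x)

/-- The subharmonic function `∑ c_i log |1 - (z/a_i)^N|`. -/
noncomputable def vv (z : ℂ) : EReal := ⨅ F : Finset ι, elog (gF N c a F z)

lemma elog_of_pos {x : ℝ} (hx : 0 < x) : elog x = (Real.log x : EReal) :=
  ENNReal.log_ofReal_of_pos hx

lemma elog_zero : elog 0 = ⊥ := by simp [elog]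

lemma elog_continuous : Continuous elog :=
  ENNReal.continuous_log.comp ENNReal.continuous_ofReal

lemma elog_mono : Monotone elog := fun _ _ h => ENNReal.log_monotone (ENNReal.ofReal_le_ofReal h)

lemma elog_lt_iff {x y : ℝ} (hx : 0 ≤ x) : elog x < (y : EReal) ↔ x < Real.exp y := by
  rcases hx.eq_or_lt with h | h
  · rw [← h, elog_zero]
    constructor
    · intro _; exact Real.exp_pos y
    · intro _; exact EReal.bot_lt_coe y
  · rw [elog_of_pos h, EReal.coe_lt_coe_iff]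
    exact Real.log_lt_iff_lt_exp h

variable {N c a}

lemma maj_nonneg (i : ι) {x : ℝ} (hx : 0 ≤ x) : 0 ≤ maj N a i x := by
  apply Real.log_nonneg
  have : 0 ≤ (x / ‖a i‖) ^ N := by positivity
  linarith

lemma maj_mono (i : ι) {x y : ℝ} (hx : 0 ≤ x) (hxy : x ≤ y) : maj N a i x ≤ maj N a i y := by
  apply Real.log_le_log (by positivity)
  gcongr

lemma ratio_nonneg (i : ι) (z : ℂ) : 0 ≤ ratio N a i z := by unfold ratio; positivity

lemma ratio_le_one (i : ι) (z : ℂ) : ratio N a i z ≤ 1 := by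
  unfold ratio
  rw [div_le_one (by positivity)]
  refine (norm_sub_le _ _).trans ?_
  rw [norm_one, norm_pow, norm_div]

lemma ratio_continuous (i : ι) : Continuous (ratio N a i) := by
  unfold ratio
  apply Continuous.div
  · fun_prop
  · fun_prop
  · intro z; positivity

lemma gF_nonneg (F : Finset ι) (z : ℂ) : 0 ≤ gF N c a F z := by
  unfold gF
  apply mul_nonneg (Real.exp_pos _).le
  apply Finset.prod_nonneg
  intro i _
  exact Real.rpow_nonneg (ratio_nonneg i z) _

lemma gF_anti (hc : ∀ i, 0 < c i) {F F' : Finset ι} (h : F ⊆ F') (z : ℂ) :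
    gF N c a F' z ≤ gF N c a F z := by
  classical
  unfold gF
  apply mul_le_mul_of_nonneg_left _ (Real.exp_pos _).le
  rw [← Finset.prod_sdiff h]
  apply mul_le_of_le_one_left
  · apply Finset.prod_nonneg
    intro i _
    exact Real.rpow_nonneg (ratio_nonneg i z) _
  · apply Finset.prod_le_one
    · intro i _
      exact Real.rpow_nonneg (ratio_nonneg i z) _
    · intro i _
      exact Real.rpow_le_one (ratio_nonneg i z) (ratio_le_one i z) (hc i).le

lemma Bt_continuousOn (hc : ∀ i, 0 < c i)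
    (hsum : ∀ R : ℝ, 0 ≤ R → Summable (fun i => c i * maj N a i R)) :
    ContinuousOn (Bt N c a) (Ici 0) := by
  intro x hx
  have hx0 : 0 ≤ x := hx
  have h1 : ContinuousOn (Bt N c a) (Icc 0 (x + 1)) := by
    unfold Bt
    apply continuousOn_tsum _ (hsum (x + 1) (by linarith))
    · intro i y hy
      rw [Real.norm_of_nonneg (mul_nonneg (hc i).le (maj_nonneg i hy.1))]
      exact mul_le_mul_of_nonneg_left (maj_mono i hy.1 hy.2) (hc i).le
    · intro i
      apply ContinuousOn.const_mul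
      intro y hy
      apply ContinuousAt.continuousWithinAt
      unfold maj
      have : 1 + (y / ‖a i‖) ^ N ≠ 0 := by
        have : 0 ≤ (y / ‖a i‖) ^ N := by
          have := hy.1
          positivity
        linarith
      fun_prop (disch := assumption)
  have h2 := h1 x ⟨hx0, by linarith⟩
  apply h2.mono_of_mem_nhdsWithin
  have : Ici 0 ∩ Iio (x + 1) ∈ 𝓝[Ici 0] x :=
    inter_mem self_mem_nhdsWithin (mem_nhdsWithin_of_mem_nhds (Iio_mem_nhds (by linarith)))
  exact mem_of_superset this (fun y hy => ⟨hy.1, le_of_lt hy.2⟩)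

lemma gF_continuous (hc : ∀ i, 0 < c i)
    (hsum : ∀ R : ℝ, 0 ≤ R → Summable (fun i => c i * maj N a i R)) (F : Finset ι) :
    Continuous (gF N c a F) := by
  unfold gF
  apply Continuous.mul
  · apply Real.continuous_exp.comp
    exact (Bt_continuousOn hc hsum).comp_continuous continuous_norm (fun z => norm_nonneg z)
  · apply continuous_finsetProd
    intro i _
    exact (ratio_continuous i).rpow_const (fun z => Or.inr (hc i).le)

lemma vv_usc (hc : ∀ i, 0 < c i)
    (hsum : ∀ R : ℝ, 0 ≤ R → Summable (fun i => c i * maj N a i R)) :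
    UpperSemicontinuous (vv N c a) := by
  unfold vv
  apply upperSemicontinuous_iInf
  intro F
  exact (elog_continuous.comp (gF_continuous hc hsum F)).upperSemicontinuous

lemma vv_le (F : Finset ι) (z : ℂ) : vv N c a z ≤ elog (gF N c a F z) := iInf_le _ F

lemma vv_le_Bt (z : ℂ) : vv N c a z ≤ (Bt N c a ‖z‖ : EReal) := by
  refine (vv_le ∅ z).trans ?_
  unfold gF
  rw [Finset.prod_empty, mul_one, elog_of_pos (Real.exp_pos _), Real.log_exp]

lemma Bt_zero (hN : N ≠ 0) : Bt N c a 0 = 0 := by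
  unfold Bt maj
  simp [hN]

lemma vv_zero (hN : N ≠ 0) : vv N c a 0 = 0 := by
  unfold vv
  have : ∀ F : Finset ι, elog (gF N c a F 0) = 0 := by
    intro F
    unfold gF ratio
    simp [hN, Bt_zero, elog]
  simp [this]

lemma vv_atom (hc : ∀ i, 0 < c i) (ha : ∀ i, a i ≠ 0) (i : ι) : vv N c a (a i) = ⊥ := by
  rw [eq_bot_iff]
  refine (vv_le {i} (a i)).trans ?_
  unfold gF ratio
  rw [Finset.prod_singleton, div_self (ha i)]
  simp [Real.zero_rpow (hc i).ne', elog]

lemma log_gF (F : Finset ι) (z : ℂ) (hz : ∀ i ∈ F, 1 - (z / a i) ^ N ≠ 0) :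
    0 < gF N c a F z ∧ Real.log (gF N c a F z) =
      (Bt N c a ‖z‖ - ∑ i ∈ F, c i * maj N a i ‖z‖) +
        ∑ i ∈ F, c i * Real.log ‖1 - (z / a i) ^ N‖ := by
  have hr : ∀ i ∈ F, 0 < ratio N a i z := by
    intro i hi
    unfold ratio
    have := norm_pos_iff.mpr (hz i hi)
    positivity
  have hpos : 0 < ∏ i ∈ F, (ratio N a i z) ^ (c i) :=
    Finset.prod_pos (fun i hi => Real.rpow_pos_of_pos (hr i hi) _)
  constructor
  · unfold gF
    positivity
  · unfold gF
    rw [Real.log_mul (Real.exp_pos _).ne' hpos.ne', Real.log_exp,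
      Real.log_prod (fun i hi => (Real.rpow_pos_of_pos (hr i hi) _).ne')]
    have h1 : ∀ i ∈ F, Real.log ((ratio N a i z) ^ (c i)) =
        c i * Real.log ‖1 - (z / a i) ^ N‖ - c i * maj N a i ‖z‖ := by
      intro i hi
      rw [Real.log_rpow (hr i hi)]
      unfold ratio maj
      rw [Real.log_div (norm_pos_iff.mpr (hz i hi)).ne' (by positivity)]
      ring
    rw [Finset.sum_congr rfl h1, Finset.sum_sub_distrib]
    ring

lemma tail_eq (hsum : ∀ R : ℝ, 0 ≤ R → Summable (fun i => c i * maj N a i R)) (F : Finset ι)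
    {x : ℝ} (hx : 0 ≤ x) :
    Bt N c a x - ∑ i ∈ F, c i * maj N a i x = ∑' i : {i // i ∉ F}, c i * maj N a i x := by
  have := (hsum x hx).sum_add_tsum_subtype_compl F
  unfold Bt
  linarith

lemma tail_nonneg (hc : ∀ i, 0 < c i)
    (hsum : ∀ R : ℝ, 0 ≤ R → Summable (fun i => c i * maj N a i R)) (F : Finset ι)
    {x : ℝ} (hx : 0 ≤ x) : 0 ≤ Bt N c a x - ∑ i ∈ F, c i * maj N a i x := by
  rw [tail_eq hsum F hx]
  exact tsum_nonneg (fun i => mul_nonneg (hc i).le (maj_nonneg _ hx))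

lemma tail_mono (hc : ∀ i, 0 < c i)
    (hsum : ∀ R : ℝ, 0 ≤ R → Summable (fun i => c i * maj N a i R)) (F : Finset ι)
    {x y : ℝ} (hx : 0 ≤ x) (hxy : x ≤ y) :
    Bt N c a x - ∑ i ∈ F, c i * maj N a i x ≤ Bt N c a y - ∑ i ∈ F, c i * maj N a i y := by
  rw [tail_eq hsum F hx, tail_eq hsum F (hx.trans hxy)]
  apply Summable.tsum_le_tsum
  · intro i
    exact mul_le_mul_of_nonneg_left (maj_mono _ hx hxy) (hc i).le
  · exact (hsum x hx).subtype _
  · exact (hsum y (hx.trans hxy)).subtype _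

lemma tail_small (hsum : ∀ R : ℝ, 0 ≤ R → Summable (fun i => c i * maj N a i R))
    {x : ℝ} (hx : 0 ≤ x) {η : ℝ} (hη : 0 < η) :
    ∃ F : Finset ι, ∀ F' : Finset ι, F ⊆ F' →
      Bt N c a x - ∑ i ∈ F', c i * maj N a i x < η := by
  have h1 : Tendsto (fun F : Finset ι => ∑ i ∈ F, c i * maj N a i x) atTop (𝓝 (Bt N c a x)) :=
    (hsum x hx).hasSum
  have h2 : ∀ᶠ F : Finset ι in atTop, Bt N c a x - η < ∑ i ∈ F, c i * maj N a i x :=
    h1.eventually_const_lt (by linarith)
  obtain ⟨F, hF⟩ := eventually_atTop.mp h2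
  exact ⟨F, fun F' hF' => by linarith [hF F' hF']⟩

lemma submean_log (f : ℂ → ℂ) (hf : Differentiable ℂ f) (w : ℂ) (hw : f w ≠ 0) {r : ℝ}
    (hr : 0 < r) : Real.log ‖f w‖ ≤ Real.circleAverage (fun z => Real.log ‖f z‖) w r := by
  have hA : AnalyticOnNhd ℂ f (Metric.closedBall w |r|) := fun z _ => hf.analyticAt z
  rw [AnalyticOnNhd.circleAverage_log_norm hr.ne' hA hw]
  have h0 : 0 ≤ ∑ᶠ u, (MeromorphicOn.divisor f (Metric.closedBall w |r|) u : ℝ) *
      Real.log (r * ‖w - u‖⁻¹) := by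
    apply finsum_nonneg
    intro u
    by_cases hu : u ∈ Metric.closedBall w |r|
    · apply mul_nonneg
      · have := (MeromorphicOn.AnalyticOnNhd.divisor_nonneg hA) u
        exact_mod_cast this
      · by_cases huw : w = u
        · subst huw; simp
        apply Real.log_nonneg
        rw [Metric.mem_closedBall, dist_comm, dist_eq_norm, abs_of_pos hr] at hu
        have h1 : 0 < ‖w - u‖ := norm_pos_iff.mpr (sub_ne_zero.mpr huw)
        rw [← div_eq_mul_inv, one_le_div h1]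
        exact hu
    · have : (MeromorphicOn.divisor f (Metric.closedBall w |r|)) u = 0 :=
        Function.locallyFinsuppWithin.apply_eq_zero_of_notMem _ hu
      simp [this]
  linarith

lemma kernel_zeros_finite (hN : N ≠ 0) (ha : ∀ i, a i ≠ 0) (i : ι) :
    {z : ℂ | 1 - (z / a i) ^ N = 0}.Countable := by
  have h1 : {z : ℂ | 1 - (z / a i) ^ N = 0} ⊆
      (fun ζ => ζ * a i) '' {ζ : ℂ | ζ ^ N = 1} := by
    intro z hz
    refine ⟨z / a i, ?_, ?_⟩
    · have : 1 - (z / a i) ^ N = 0 := hz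
      exact (sub_eq_zero.mp this).symm
    · exact div_mul_cancel₀ z (ha i)
  apply Set.Countable.mono h1
  apply Set.Countable.image
  apply Set.Finite.countable
  have h2 : {ζ : ℂ | ζ ^ N = 1} = ↑(Polynomial.nthRoots N (1 : ℂ)).toFinset := by
    ext ζ
    simp [Polynomial.mem_nthRoots (Nat.pos_of_ne_zero hN)]
  rw [h2]
  exact Finset.finite_toSet _

lemma kernel_diff (i : ι) : Differentiable ℂ (fun z => 1 - (z / a i) ^ N) := by fun_prop

/-- The submean inequality for the finite approximations with a continuous majorant. -/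
lemma finite_submean (hN : N ≠ 0) (hc : ∀ i, 0 < c i) (ha : ∀ i, a i ≠ 0)
    (hsum : ∀ R : ℝ, 0 ≤ R → Summable (fun i => c i * maj N a i R)) (F : Finset ι)
    (w : ℂ) (hw : ∀ i ∈ F, 1 - (w / a i) ^ N ≠ 0) {r : ℝ} (hr : 0 < r)
    (φ : ℂ → ℝ) (hφ : Continuous φ)
    (h : ∀ z ∈ Metric.sphere w r, gF N c a F z < Real.exp (φ z)) :
    ∑ i ∈ F, c i * Real.log ‖1 - (w / a i) ^ N‖ ≤ Real.circleAverage φ w r := by
  have hint : ∀ i : ι, CircleIntegrable (fun z => Real.log ‖1 - (z / a i) ^ N‖) w r := by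
    intro i
    apply MeromorphicOn.circleIntegrable_log_norm
    intro z _
    exact ((kernel_diff (N := N) (a := a) i).analyticAt z).meromorphicAt
  have hint2 : ∀ i ∈ F, CircleIntegrable (fun z => c i * Real.log ‖1 - (z / a i) ^ N‖) w r := by
    intro i _
    exact (hint i).const_smul (a := c i)
  calc ∑ i ∈ F, c i * Real.log ‖1 - (w / a i) ^ N‖
      ≤ ∑ i ∈ F, c i * Real.circleAverage (fun z => Real.log ‖1 - (z / a i) ^ N‖) w r := by
        apply Finset.sum_le_sum
        intro i hi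
        exact mul_le_mul_of_nonneg_left
          (submean_log (fun z => 1 - (z / a i) ^ N) (kernel_diff i) w (hw i hi) hr) (hc i).le
    _ = Real.circleAverage (∑ i ∈ F, fun z => c i * Real.log ‖1 - (z / a i) ^ N‖) w r := by
        rw [Real.circleAverage_sum hint2]
        apply Finset.sum_congr rfl
        intro i _
        have := Real.circleAverage_fun_smul (a := c i)
          (f := fun z => Real.log ‖1 - (z / a i) ^ N‖) (c := w) (R := r)
        simp only [smul_eq_mul] at this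
        exact this.symm
    _ ≤ Real.circleAverage φ w r := by
        unfold Real.circleAverage
        rw [smul_eq_mul, smul_eq_mul]
        apply mul_le_mul_of_nonneg_left _ (by positivity)
        apply intervalIntegral.integral_mono_ae Real.two_pi_pos.le
        · exact CircleIntegrable.sum F hint2
        · exact (hφ.comp (continuous_circleMap w r)).intervalIntegrable _ _
        · have hcount : (circleMap w r ⁻¹' (⋃ i ∈ F, {z : ℂ | 1 - (z / a i) ^ N = 0})).Countable := by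
            apply Set.Countable.preimage_circleMap _ w hr.ne'
            exact Set.Countable.biUnion F.countable_toSet
              (fun i _ => kernel_zeros_finite hN ha i)
          have hae : ∀ᵐ θ : ℝ, θ ∉ circleMap w r ⁻¹' (⋃ i ∈ F, {z : ℂ | 1 - (z / a i) ^ N = 0}) :=
            hcount.ae_notMem _
          filter_upwards [hae] with θ hθ
          have hz : ∀ i ∈ F, 1 - (circleMap w r θ / a i) ^ N ≠ 0 := by
            intro i hi h0
            apply hθ
            rw [Set.mem_preimage, Set.mem_iUnion₂]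
            exact ⟨i, hi, h0⟩
          have h1 := log_gF (c := c) F (circleMap w r θ) hz
          have h2 := h (circleMap w r θ) (circleMap_mem_sphere w hr.le θ)
          have h3 : Real.log (gF N c a F (circleMap w r θ)) < φ (circleMap w r θ) :=
            (Real.log_lt_iff_lt_exp h1.1).mpr h2
          have h4 := tail_nonneg hc hsum F (norm_nonneg (circleMap w r θ))
          rw [h1.2] at h3
          simp only [Finset.sum_apply]
          linarith

lemma gF_eq_zero (hc : ∀ i, 0 < c i) (F : Finset ι) (z : ℂ) {i : ι} (hi : i ∈ F)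
    (h0 : 1 - (z / a i) ^ N = 0) : gF N c a F z = 0 := by
  unfold gF
  rw [Finset.prod_eq_zero hi, mul_zero]
  unfold ratio
  rw [h0, norm_zero, zero_div, Real.zero_rpow (hc i).ne']

lemma vv_subharmonic (hN : N ≠ 0) (hc : ∀ i, 0 < c i) (ha : ∀ i, a i ≠ 0)
    (hsum : ∀ R : ℝ, 0 ≤ R → Summable (fun i => c i * maj N a i R)) :
    SubharmonicOn (vv N c a) Set.univ := by
  classical
  refine ⟨(vv_usc hc hsum).upperSemicontinuousOn _, ?_, ?_⟩
  · intro z _ htop
    have := vv_le_Bt (N := N) (c := c) (a := a) z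
    rw [htop] at this
    exact absurd this (not_le.mpr (EReal.coe_lt_top _))
  · intro w r hr _ φ hφ hle
    by_contra hcon
    push Not at hcon
    obtain ⟨y, hy1, hy2⟩ := EReal.lt_iff_exists_real_btwn.mp hcon
    rw [EReal.coe_lt_coe_iff] at hy1
    set η : ℝ := (y - Real.circleAverage φ w r) / 2 with hη
    have hη0 : 0 < η := by rw [hη]; linarith
    -- compactness
    obtain ⟨F1, hF1⟩ := (isCompact_sphere w r).elim_directed_cover
      (fun F : Finset ι => {z : ℂ | gF N c a F z < Real.exp (φ z + η)})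
      (fun F => isOpen_lt (gF_continuous hc hsum F) (by fun_prop))
      (by
        intro z hz
        have h1 : vv N c a z < ((φ z + η : ℝ) : EReal) :=
          lt_of_le_of_lt (hle z hz) (by rw [EReal.coe_lt_coe_iff]; linarith)
        unfold vv at h1
        obtain ⟨F, hF⟩ := iInf_lt_iff.mp h1
        rw [elog_lt_iff (gF_nonneg F z)] at hF
        exact Set.mem_iUnion.mpr ⟨F, hF⟩)
      (by
        intro F F'
        refine ⟨F ∪ F', ?_, ?_⟩
        · intro z hz
          exact lt_of_le_of_lt (gF_anti hc Finset.subset_union_left z) hz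
        · intro z hz
          exact lt_of_le_of_lt (gF_anti hc Finset.subset_union_right z) hz)
    obtain ⟨F2, hF2⟩ := tail_small (c := c) (N := N) (a := a) hsum (norm_nonneg w) hη0
    set F := F1 ∪ F2 with hF
    have hFS : ∀ z ∈ Metric.sphere w r, gF N c a F z < Real.exp (φ z + η) := fun z hz =>
      lt_of_le_of_lt (gF_anti hc Finset.subset_union_left z) (hF1 hz)
    by_cases hz : ∀ i ∈ F, 1 - (w / a i) ^ N ≠ 0
    · have h1 := finite_submean hN hc ha hsum F w hz hr (fun z => φ z + η) (by fun_prop) hFS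
      have h2 : Real.circleAverage (fun z => φ z + η) w r = Real.circleAverage φ w r + η := by
        rw [Real.circleAverage_fun_add]
        · rw [Real.circleAverage_const]
        · exact (hφ.continuousOn).circleIntegrable hr.le
        · exact circleIntegrable_const _ _ _
      have h3 := log_gF (c := c) F w hz
      have h4 := hF2 F Finset.subset_union_right
      have h5 := vv_le (N := N) (c := c) (a := a) F w
      rw [elog_of_pos h3.1] at h5
      have h6 := lt_of_lt_of_le hy2 h5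
      rw [EReal.coe_lt_coe_iff, h3.2] at h6
      rw [h2] at h1
      linarith
    · push Not at hz
      obtain ⟨i, hi, h0⟩ := hz
      have h5 := vv_le (N := N) (c := c) (a := a) F w
      rw [gF_eq_zero hc F w hi h0, elog_zero] at h5
      exact absurd (lt_of_lt_of_le hy2 h5) not_lt_bot

/-- The product of the kernels. -/
noncomputable def pF (N : ℕ) (c : ι → ℝ) (a : ι → ℂ) (F : Finset ι) (z : ℂ) : ℝ :=
  ∏ i ∈ F, ‖1 - (z / a i) ^ N‖ ^ (c i)

lemma pF_nonneg (F : Finset ι) (z : ℂ) : 0 ≤ pF N c a F z :=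
  Finset.prod_nonneg (fun _ _ => Real.rpow_nonneg (norm_nonneg _) _)

lemma pF_continuous (hc : ∀ i, 0 < c i) (F : Finset ι) : Continuous (pF N c a F) := by
  unfold pF
  apply continuous_finsetProd
  intro i _
  apply Continuous.rpow_const (by fun_prop)
  intro z
  exact Or.inr (hc i).le

lemma pF_ne (hc : ∀ i, 0 < c i) (F : Finset ι) (z : ℂ) :
    0 < pF N c a F z ↔ ∀ i ∈ F, 1 - (z / a i) ^ N ≠ 0 := by
  constructor
  · intro h i hi h0
    have : pF N c a F z = 0 := by
      unfold pF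
      apply Finset.prod_eq_zero hi
      rw [h0, norm_zero, Real.zero_rpow (hc i).ne']
    linarith
  · intro h
    exact Finset.prod_pos (fun i hi => Real.rpow_pos_of_pos (norm_pos_iff.mpr (h i hi)) _)

lemma log_pF (F : Finset ι) (z : ℂ) (h : ∀ i ∈ F, 1 - (z / a i) ^ N ≠ 0) :
    Real.log (pF N c a F z) = ∑ i ∈ F, c i * Real.log ‖1 - (z / a i) ^ N‖ := by
  unfold pF
  rw [Real.log_prod (fun i hi => (Real.rpow_pos_of_pos (norm_pos_iff.mpr (h i hi)) _).ne')]
  apply Finset.sum_congr rfl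
  intro i hi
  rw [Real.log_rpow (norm_pos_iff.mpr (h i hi))]

lemma pF_zero (hN : N ≠ 0) (F : Finset ι) : pF N c a F 0 = 1 := by
  unfold pF
  simp [hN]

lemma harmonic_sum (F : Finset ι) (z : ℂ) (h : ∀ i ∈ F, 1 - (z / a i) ^ N ≠ 0) :
    InnerProductSpace.HarmonicAt (fun z => ∑ i ∈ F, c i * Real.log ‖1 - (z / a i) ^ N‖) z := by
  classical
  induction F using Finset.induction_on with
  | empty => simp
  | insert i F hi ih =>
    have h1 : (fun z => ∑ i ∈ insert i F, c i * Real.log ‖1 - (z / a i) ^ N‖) =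
        (c i • fun z : ℂ => Real.log ‖1 - (z / a i) ^ N‖) +
          fun z => ∑ i ∈ F, c i * Real.log ‖1 - (z / a i) ^ N‖ := by
      ext z
      rw [Finset.sum_insert hi]
      simp
    rw [h1]
    apply InnerProductSpace.HarmonicAt.add
    · apply InnerProductSpace.HarmonicAt.const_smul
      apply AnalyticAt.harmonicAt_log_norm ((kernel_diff i).analyticAt z)
      exact h i (Finset.mem_insert_self i F)
    · exact ih (fun j hj => h j (Finset.mem_insert_of_mem hj))

/-- The maximum principle argument: a subharmonic `w` with `w(0) = 0` cannot satisfy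
`w ≤ log p - κ` on a circle around `0` free of zeros of `p`, if `w ≤ log p + κ` inside. -/
lemma no_minorant_aux (hN : N ≠ 0) (hc : ∀ i, 0 < c i) (F : Finset ι)
    (w : ℂ → EReal) (hw : SubharmonicOn w Set.univ) (hw0 : w 0 = 0) {r κ : ℝ} (hr : 0 < r)
    (hκ : 0 < κ) (hrne : ∀ z ∈ Metric.sphere (0 : ℂ) r, 0 < pF N c a F z)
    (hin : ∀ z ∈ Metric.closedBall (0 : ℂ) r, 0 < pF N c a F z →
      w z ≤ ((κ + Real.log (pF N c a F z) : ℝ) : EReal))
    (hbd : ∀ z ∈ Metric.sphere (0 : ℂ) r,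
      w z ≤ ((Real.log (pF N c a F z) - κ : ℝ) : EReal)) : False := by
  set p : ℂ → ℝ := pF N c a F with hp
  have hpc : Continuous p := pF_continuous hc F
  -- bound of log p on the sphere
  obtain ⟨M, hM0, hM⟩ : ∃ M : ℝ, 0 ≤ M ∧ ∀ z ∈ Metric.sphere (0 : ℂ) r, Real.log (p z) ≤ M := by
    have hcl : ContinuousOn (fun z => Real.log (p z)) (Metric.sphere (0 : ℂ) r) :=
      hpc.continuousOn.log (fun z hz => (hrne z hz).ne')
    obtain ⟨M, hM⟩ := (isCompact_sphere (0 : ℂ) r).bddAbove_image hcl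
    exact ⟨max M 0, le_max_right _ _, fun z hz =>
      (hM (Set.mem_image_of_mem _ hz)).trans (le_max_left _ _)⟩
  set δ : ℝ := min (1 / 2) (κ / (4 * (M + 1))) with hδ
  have hδ0 : 0 < δ := by
    rw [hδ]
    apply lt_min (by norm_num) (by positivity)
  have hδ1 : δ < 1 := lt_of_le_of_lt (min_le_left _ _) (by norm_num)
  have hδM : ∀ x : ℝ, x ≤ M → δ * x ≤ κ / 4 := by
    intro x hx
    have h1 : δ * x ≤ δ * M := mul_le_mul_of_nonneg_left hx hδ0.le
    have h2 : δ * M ≤ κ / (4 * (M + 1)) * M := mul_le_mul_of_nonneg_right (min_le_right _ _) hM0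
    have h3 : κ / (4 * (M + 1)) * M ≤ κ / 4 := by
      rw [div_mul_eq_mul_div, div_le_div_iff₀ (by positivity) (by norm_num)]
      nlinarith
    linarith
  set η : ℝ := κ / (4 * r ^ 2) with hη
  have hη0 : 0 < η := by rw [hη]; positivity
  have hηr : η * r ^ 2 = κ / 4 := by rw [hη]; field_simp
  set s : ℝ := Real.exp (-(2 + κ + η * r ^ 2) / δ) with hs
  have hs0 : 0 < s := Real.exp_pos _
  have hs1 : s < 1 := by
    rw [hs, Real.exp_lt_one_iff]
    apply div_neg_of_neg_of_pos _ hδ0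
    have : 0 < η * r ^ 2 := by positivity
    linarith
  have hδs : δ * Real.log s = -(2 + κ + η * r ^ 2) := by
    rw [hs, Real.log_exp]
    field_simp
  set h : ℂ → ℝ := fun z => -(1 - δ) * Real.log (max (p z) s) + η * ‖z‖ ^ 2 with hh
  have hhc : Continuous h := by
    have h1 : Continuous (fun z => Real.log (max (p z) s)) := by
      apply Continuous.log (by fun_prop)
      intro z
      exact (lt_of_lt_of_le hs0 (le_max_right _ _)).ne'
    fun_prop
  set G : ℂ → EReal := fun z => w z + (h z : EReal) with hG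
  set K : Set ℂ := {z | ‖z‖ ≤ r ∧ s ≤ p z} with hK
  have hKc : IsCompact K := by
    have h1 : K = Metric.closedBall 0 r ∩ {z | s ≤ p z} := by
      ext z
      simp [hK]
    rw [h1]
    exact (isCompact_closedBall 0 r).inter_right (isClosed_le continuous_const hpc)
  have h0K : (0 : ℂ) ∈ K := by
    refine ⟨by simpa using hr.le, ?_⟩
    rw [hp, pF_zero hN]
    exact hs1.le
  have hGusc : UpperSemicontinuousOn G K := by
    apply UpperSemicontinuousOn.add'
    · exact hw.1.mono (Set.subset_univ _)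
    · exact (continuous_coe_real_ereal.comp hhc).continuousOn.upperSemicontinuousOn
    · intro z _
      exact EReal.continuousAt_add (Or.inr (EReal.coe_ne_bot _)) (Or.inr (EReal.coe_ne_top _))
  obtain ⟨z0, hz0K, hz0max⟩ := hGusc.exists_isMaxOn ⟨0, h0K⟩ hKc
  have hG0 : G 0 = 0 := by
    simp only [hG, hh, hw0]
    rw [hp, pF_zero hN, max_eq_left hs1.le]
    simp
  have hGz0 : 0 ≤ G z0 := by
    rw [← hG0]
    exact hz0max h0K
  have hwtop : w z0 ≠ ⊤ := hw.2.1 z0 (Set.mem_univ _)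
  have hwbot : w z0 ≠ ⊥ := by
    intro hb
    simp only [hG, hb, EReal.bot_add] at hGz0
    exact absurd hGz0 (by simp)
  obtain ⟨x0, hx0⟩ : ∃ x0 : ℝ, w z0 = (x0 : EReal) :=
    ⟨(w z0).toReal, (EReal.coe_toReal hwtop hwbot).symm⟩
  have hGval : G z0 = ((x0 + h z0 : ℝ) : EReal) := by
    show w z0 + ((h z0 : ℝ) : EReal) = _
    rw [hx0, ← EReal.coe_add]
  have hge0 : 0 ≤ x0 + h z0 := by
    rw [hGval] at hGz0
    exact_mod_cast hGz0
  have hpz0 : 0 < p z0 := lt_of_lt_of_le hs0 hz0K.2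
  have hmaxz0 : max (p z0) s = p z0 := max_eq_left hz0K.2
  have hnz : η * ‖z0‖ ^ 2 ≤ η * r ^ 2 := by
    apply mul_le_mul_of_nonneg_left _ hη0.le
    exact pow_le_pow_left₀ (norm_nonneg _) hz0K.1 2
  -- z0 is not on the boundary circle
  have hlt : ‖z0‖ < r := by
    rcases hz0K.1.lt_or_eq with h1 | h1
    · exact h1
    · exfalso
      have hz0S : z0 ∈ Metric.sphere (0 : ℂ) r := by simpa using h1
      have h2 := hbd z0 hz0S
      rw [hx0, EReal.coe_le_coe_iff] at h2
      have h3 := hδM _ (hM z0 hz0S)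
      simp only [hh, hmaxz0] at hge0
      nlinarith
  have hps : s < p z0 := by
    rcases hz0K.2.lt_or_eq with h1 | h1
    · exact h1
    · exfalso
      have h2 := hin z0 (by simpa using hz0K.1) hpz0
      rw [hx0, EReal.coe_le_coe_iff] at h2
      simp only [hh, hmaxz0] at hge0
      rw [← h1] at h2 hge0
      nlinarith
  -- small ball around z0
  have hopen : IsOpen {z : ℂ | ‖z‖ < r ∧ s < p z} :=
    (isOpen_lt continuous_norm continuous_const).inter (isOpen_lt continuous_const hpc)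
  obtain ⟨t, ht0, ht⟩ := Metric.isOpen_iff.mp hopen z0 ⟨hlt, hps⟩
  set t' : ℝ := t / 2 with ht'
  have ht'0 : 0 < t' := by rw [ht']; linarith
  have hball : Metric.closedBall z0 t' ⊆ {z : ℂ | ‖z‖ < r ∧ s < p z} := by
    refine (Metric.closedBall_subset_ball ?_).trans ht
    rw [ht']; linarith
  have hballp : ∀ z ∈ Metric.closedBall z0 t', ∀ i ∈ F, 1 - (z / a i) ^ N ≠ 0 := by
    intro z hz
    rw [← pF_ne (c := c) hc]
    exact lt_trans hs0 (hball hz).2
  set φ : ℂ → ℝ := fun z => (x0 + h z0) - h z with hφ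
  have hφc : Continuous φ := by fun_prop
  have hle : ∀ z ∈ Metric.sphere z0 t', w z ≤ (φ z : EReal) := by
    intro z hz
    have hzb : z ∈ Metric.closedBall z0 t' := Metric.sphere_subset_closedBall hz
    have hzK : z ∈ K := ⟨(hball hzb).1.le, (hball hzb).2.le⟩
    have h1 : G z ≤ G z0 := hz0max hzK
    rw [hGval] at h1
    simp only [hG] at h1
    by_cases hb : w z = ⊥
    · rw [hb]; exact bot_le
    · have htp : w z ≠ ⊤ := hw.2.1 z (Set.mem_univ _)
      obtain ⟨x, hx⟩ : ∃ x : ℝ, w z = (x : EReal) := ⟨(w z).toReal, (EReal.coe_toReal htp hb).symm⟩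
      rw [hx, ← EReal.coe_add, EReal.coe_le_coe_iff] at h1
      rw [hx, EReal.coe_le_coe_iff]
      simp only [hφ]
      linarith
  have hsub := hw.2.2 z0 t' ht'0 (Set.subset_univ _) φ hφc hle
  rw [hx0, EReal.coe_le_coe_iff] at hsub
  -- compute the average
  set A : ℂ → ℂ := fun z => ((x0 + h z0 - η * (‖z0‖ ^ 2 + t' ^ 2) : ℝ) : ℂ) -
    2 * (η : ℂ) * (conj z0 * (z - z0)) with hA
  have hψ : InnerProductSpace.HarmonicOnNhd
      ((fun z => (A z).re) + (1 - δ) • fun z : ℂ => ∑ i ∈ F, c i * Real.log ‖1 - (z / a i) ^ N‖)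
      (Metric.closedBall z0 |t'|) := by
    rw [abs_of_pos ht'0]
    intro z hz
    apply InnerProductSpace.HarmonicAt.add
    · have hAd : Differentiable ℂ A := by
        simp only [hA]
        fun_prop
      exact (hAd.analyticAt z).harmonicAt_re
    · apply InnerProductSpace.HarmonicAt.const_smul
      exact harmonic_sum F z (hballp z hz)
  have hAre : ∀ z, (A z).re = x0 + h z0 - η * (‖z0‖ ^ 2 + t' ^ 2) -
      2 * η * (conj z0 * (z - z0)).re := by
    intro z
    simp only [hA]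
    rw [Complex.sub_re, Complex.ofReal_re]
    congr 1
    rw [mul_assoc, Complex.mul_re]
    simp
    ring
  have havg : Real.circleAverage φ z0 t' = x0 - η * t' ^ 2 := by
    have h1 : Set.EqOn φ ((fun z => (A z).re) +
        (1 - δ) • fun z : ℂ => ∑ i ∈ F, c i * Real.log ‖1 - (z / a i) ^ N‖)
        (Metric.sphere z0 |t'|) := by
      intro z hz
      rw [abs_of_pos ht'0] at hz
      have hzb : z ∈ Metric.closedBall z0 t' := Metric.sphere_subset_closedBall hz
      have hz' : ‖z - z0‖ = t' := by simpa [dist_eq_norm] using hz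
      have hmx : max (p z) s = p z := max_eq_left (hball hzb).2.le
      have hlp := log_pF (c := c) F z (hballp z hzb)
      have hnorm : ‖z‖ ^ 2 = ‖z0‖ ^ 2 + 2 * (conj z0 * (z - z0)).re + t' ^ 2 := by
        rw [← hz', ← Complex.normSq_eq_norm_sq, ← Complex.normSq_eq_norm_sq,
          ← Complex.normSq_eq_norm_sq, Complex.normSq_apply, Complex.normSq_apply,
          Complex.normSq_apply]
        simp
        ring
      simp only [hφ, Pi.add_apply, Pi.smul_apply, smul_eq_mul]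
      rw [hAre, ← hlp, ← hp]
      have : h z = -(1 - δ) * Real.log (p z) + η * ‖z‖ ^ 2 := by
        simp only [hh, hmx]
      rw [this, hnorm]
      ring
    rw [Real.circleAverage_congr_sphere h1, InnerProductSpace.HarmonicOnNhd.circleAverage_eq hψ]
    have hlp := log_pF (c := c) F z0 (hballp z0 (Metric.mem_closedBall_self ht'0.le))
    simp only [Pi.add_apply, Pi.smul_apply, smul_eq_mul]
    rw [← hlp, ← hp]
    have h2 : (A z0).re = x0 + h z0 - η * (‖z0‖ ^ 2 + t' ^ 2) := by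
      rw [hAre z0]
      simp
    have h3 : h z0 = -(1 - δ) * Real.log (p z0) + η * ‖z0‖ ^ 2 := by
      simp only [hh, hmaxz0]
    rw [h2, h3]
    ring
  rw [havg] at hsub
  have : 0 < η * t' ^ 2 := by positivity
  linarith

lemma no_minorant [Countable ι] (hN : N ≠ 0) (hc : ∀ i, 0 < c i) (ha : ∀ i, a i ≠ 0)
    (hsum : ∀ R : ℝ, 0 ≤ R → Summable (fun i => c i * maj N a i R)) {ρ ε : ℝ} (hε : 0 < ε)
    (w : ℂ → EReal) (hw : SubharmonicOn w Set.univ) (hw0 : w 0 = 0)
    (hle : ∀ z, w z ≤ vv N c a z - ((ε * ‖z‖ ^ ρ : ℝ) : EReal)) : False := by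
  obtain ⟨r, hr0, hr⟩ : ∃ r : ℝ, 0 < r ∧ ∀ i, ‖a i‖ ≠ r := by
    have h1 := (Set.countable_range (fun i => ‖a i‖)).dense_compl ℝ
    obtain ⟨r, hr1, hr2⟩ := h1.exists_mem_open (isOpen_Ioi (a := (0 : ℝ))) Set.nonempty_Ioi
    exact ⟨r, hr2, fun i hi => hr1 ⟨i, hi⟩⟩
  set κ : ℝ := ε * r ^ ρ / 2 with hκ
  have hκ0 : 0 < κ := by
    have := Real.rpow_pos_of_pos hr0 ρ
    rw [hκ]; positivity
  obtain ⟨F, hF⟩ := tail_small (c := c) (N := N) (a := a) hsum hr0.le hκ0
  have hFr := hF F (Finset.Subset.refl F)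
  have hupper : ∀ z ∈ Metric.closedBall (0 : ℂ) r, 0 < pF N c a F z →
      vv N c a z ≤ ((κ + Real.log (pF N c a F z) : ℝ) : EReal) := by
    intro z hz hp
    have hz' : ‖z‖ ≤ r := by simpa using hz
    have hne := (pF_ne hc F z).mp hp
    have h1 := log_gF (c := c) F z hne
    refine (vv_le F z).trans ?_
    rw [elog_of_pos h1.1, h1.2, log_pF F z hne, EReal.coe_le_coe_iff]
    have h2 := tail_mono hc hsum F (norm_nonneg z) hz'
    linarith
  apply no_minorant_aux hN hc F w hw hw0 hr0 hκ0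
  · intro z hz
    rw [pF_ne hc]
    intro i _ h0
    apply hr i
    have hz' : ‖z‖ = r := by simpa using hz
    have h1 : (z / a i) ^ N = 1 := (sub_eq_zero.mp h0).symm
    have h2 : ‖z / a i‖ ^ N = 1 := by rw [← norm_pow, h1, norm_one]
    have h3 : ‖z / a i‖ = 1 := (pow_eq_one_iff_of_nonneg (norm_nonneg _) hN).mp h2
    rw [norm_div, div_eq_one_iff_eq (norm_ne_zero_iff.mpr (ha i))] at h3
    rw [← h3, hz']
  · intro z hz hp
    refine (hle z).trans ?_
    refine le_trans ?_ (hupper z hz hp)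
    have h1 : (0 : EReal) ≤ ((ε * ‖z‖ ^ ρ : ℝ) : EReal) := by
      have : 0 ≤ ε * ‖z‖ ^ ρ := mul_nonneg hε.le (Real.rpow_nonneg (norm_nonneg z) ρ)
      exact_mod_cast this
    calc vv N c a z - ((ε * ‖z‖ ^ ρ : ℝ) : EReal) ≤ vv N c a z - 0 := EReal.sub_le_sub le_rfl h1
      _ = vv N c a z := by simp
  · intro z hz
    have hz' : ‖z‖ = r := by simpa using hz
    have hp : 0 < pF N c a F z := by
      rw [pF_ne hc]
      intro i _ h0
      apply hr i
      have h1 : (z / a i) ^ N = 1 := (sub_eq_zero.mp h0).symm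
      have h2 : ‖z / a i‖ ^ N = 1 := by rw [← norm_pow, h1, norm_one]
      have h3 : ‖z / a i‖ = 1 := (pow_eq_one_iff_of_nonneg (norm_nonneg _) hN).mp h2
      rw [norm_div, div_eq_one_iff_eq (norm_ne_zero_iff.mpr (ha i))] at h3
      rw [← h3, hz']
    refine (hle z).trans ?_
    have h1 := hupper z (Metric.sphere_subset_closedBall hz) hp
    refine (EReal.sub_le_sub h1 le_rfl).trans ?_
    rw [← EReal.coe_sub, EReal.coe_le_coe_iff, hz']
    have : ε * r ^ ρ = 2 * κ := by rw [hκ]; ring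
    rw [this]
    linarith

lemma Bt_scale (e : ι ≃ ι) {q Q : ℝ} (hq : 0 < q) (hae : ∀ i, a (e i) = (q : ℂ) * a i)
    (hce : ∀ i, c (e i) = Q * c i) (x : ℝ) : Bt N c a (q * x) = Q * Bt N c a x := by
  unfold Bt
  rw [← e.tsum_eq, ← tsum_mul_left]
  apply tsum_congr
  intro i
  have h1 : maj N a (e i) (q * x) = maj N a i x := by
    unfold maj
    rw [hae, norm_mul, Complex.norm_real, Real.norm_of_nonneg hq.le, mul_div_mul_left _ _ hq.ne']
  rw [h1, hce, mul_assoc]

lemma gF_scale (e : ι ≃ ι) {q Q : ℝ} (hq : 0 < q) (hae : ∀ i, a (e i) = (q : ℂ) * a i)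
    (hce : ∀ i, c (e i) = Q * c i) (F : Finset ι) (z : ℂ) :
    gF N c a (F.map e.toEmbedding) ((q : ℂ) * z) = (gF N c a F z) ^ Q := by
  have hqC : (q : ℂ) ≠ 0 := by exact_mod_cast hq.ne'
  unfold gF
  have h0 : 0 ≤ ∏ i ∈ F, (ratio N a i z) ^ (c i) :=
    Finset.prod_nonneg (fun i _ => Real.rpow_nonneg (ratio_nonneg i z) _)
  rw [Real.mul_rpow (Real.exp_pos _).le h0, norm_mul, Complex.norm_real,
    Real.norm_of_nonneg hq.le, Bt_scale e hq hae hce, Finset.prod_map,
    ← Real.finsetProd_rpow _ _ (fun i _ => Real.rpow_nonneg (ratio_nonneg i z) _)]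
  congr 1
  · rw [← Real.exp_mul]
    ring_nf
  · apply Finset.prod_congr rfl
    intro i _
    have h1 : ratio N a (e i) ((q : ℂ) * z) = ratio N a i z := by
      unfold ratio
      rw [hae, norm_mul, norm_mul, Complex.norm_real, Real.norm_of_nonneg hq.le,
        mul_div_mul_left _ _ hq.ne', mul_div_mul_left _ _ hqC]
    simp only [Equiv.coe_toEmbedding]
    rw [h1, hce, ← Real.rpow_mul (ratio_nonneg i z), mul_comm]

lemma elog_rpow {x Q : ℝ} (hx : 0 ≤ x) (hQ : 0 ≤ Q) : elog (x ^ Q) = (Q : EReal) * elog x := by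
  unfold elog
  rw [← ENNReal.ofReal_rpow_of_nonneg hx hQ, ENNReal.log_rpow]

lemma vv_scale (e : ι ≃ ι) {q Q : ℝ} (hq : 0 < q) (hQ : 0 < Q)
    (hae : ∀ i, a (e i) = (q : ℂ) * a i)
    (hce : ∀ i, c (e i) = Q * c i) (z : ℂ) :
    vv N c a ((q : ℂ) * z) = (Q : EReal) * vv N c a z := by
  have hkey : ∀ F : Finset ι, elog (gF N c a (F.map e.toEmbedding) ((q : ℂ) * z)) =
      (Q : EReal) * elog (gF N c a F z) := by
    intro F
    rw [gF_scale e hq hae hce F z, elog_rpow (gF_nonneg F z) hQ.le]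
  have hQE : (0 : EReal) ≤ (Q : EReal) := by exact_mod_cast hQ.le
  have hQE' : (0 : EReal) ≤ ((Q⁻¹ : ℝ) : EReal) := by exact_mod_cast (inv_pos.mpr hQ).le
  have hinv : ∀ x : EReal, ((Q⁻¹ : ℝ) : EReal) * ((Q : EReal) * x) = x := by
    intro x
    rw [← mul_assoc, ← EReal.coe_mul, inv_mul_cancel₀ hQ.ne', EReal.coe_one, one_mul]
  have hinv' : ∀ x : EReal, (Q : EReal) * (((Q⁻¹ : ℝ) : EReal) * x) = x := by
    intro x
    rw [← mul_assoc, ← EReal.coe_mul, mul_inv_cancel₀ hQ.ne', EReal.coe_one, one_mul]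
  apply le_antisymm
  · have h1 : ((Q⁻¹ : ℝ) : EReal) * vv N c a ((q : ℂ) * z) ≤ vv N c a z := by
      apply le_iInf
      intro F
      calc ((Q⁻¹ : ℝ) : EReal) * vv N c a ((q : ℂ) * z)
          ≤ ((Q⁻¹ : ℝ) : EReal) * elog (gF N c a (F.map e.toEmbedding) ((q : ℂ) * z)) :=
            mul_le_mul_of_nonneg_left (vv_le _ _) hQE'
        _ = elog (gF N c a F z) := by rw [hkey F, hinv]
    calc vv N c a ((q : ℂ) * z) = (Q : EReal) * (((Q⁻¹ : ℝ) : EReal) * vv N c a ((q : ℂ) * z)) :=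
          (hinv' _).symm
      _ ≤ (Q : EReal) * vv N c a z := mul_le_mul_of_nonneg_left h1 hQE
  · apply le_iInf
    intro F
    have h2 : F = (F.map e.symm.toEmbedding).map e.toEmbedding := by
      rw [Finset.map_map]
      ext i
      simp
    rw [h2, hkey]
    exact mul_le_mul_of_nonneg_left (vv_le _ _) hQE

end general

/-- The series `∑_{n ∈ ℤ} Q^n log (1 + (x / q^n)^N)`. -/
noncomputable def SS (q Q : ℝ) (N : ℕ) (x : ℝ) : ℝ :=
  ∑' n : ℤ, Q ^ n * Real.log (1 + (x / q ^ n) ^ N)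

lemma SS_term_nonneg {q Q : ℝ} (hq : 1 < q) (hQ : 1 < Q) (N : ℕ) {x : ℝ} (hx : 0 ≤ x) (n : ℤ) :
    0 ≤ Q ^ n * Real.log (1 + (x / q ^ n) ^ N) := by
  have hq0 : 0 < q := by linarith
  have hQ0 : 0 < Q := by linarith
  apply mul_nonneg (zpow_pos hQ0 n).le
  apply Real.log_nonneg
  have : 0 ≤ (x / q ^ n) ^ N := by positivity
  linarith

lemma SS_summable {q Q : ℝ} (hq : 1 < q) (hQ : 1 < Q) {N : ℕ} (hQN : Q < q ^ N) {x : ℝ}
    (hx : 0 ≤ x) : Summable (fun n : ℤ => Q ^ n * Real.log (1 + (x / q ^ n) ^ N)) := by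
  have hq0 : 0 < q := by linarith
  have hQ0 : 0 < Q := by linarith
  apply Summable.of_nat_of_neg
  · have h1 : Summable (fun n : ℕ => x ^ N * (Q / q ^ N) ^ n) := by
      apply Summable.mul_left
      apply summable_geometric_of_lt_one (by positivity)
      rw [div_lt_one (by positivity)]
      exact hQN
    apply Summable.of_nonneg_of_le _ _ h1
    · intro n
      exact SS_term_nonneg hq hQ N hx n
    · intro n
      have h2 : Real.log (1 + (x / q ^ (n : ℤ)) ^ N) ≤ (x / q ^ (n : ℤ)) ^ N := by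
        have h3 : 0 ≤ (x / q ^ (n : ℤ)) ^ N := by positivity
        have := Real.log_le_sub_one_of_pos (show 0 < 1 + (x / q ^ (n : ℤ)) ^ N by linarith)
        linarith
      calc Q ^ (n : ℤ) * Real.log (1 + (x / q ^ (n : ℤ)) ^ N)
          ≤ Q ^ (n : ℤ) * (x / q ^ (n : ℤ)) ^ N :=
            mul_le_mul_of_nonneg_left h2 (zpow_pos hQ0 _).le
        _ = x ^ N * (Q / q ^ N) ^ n := by
            rw [zpow_natCast, zpow_natCast, div_pow, div_pow, ← pow_mul, ← pow_mul, mul_comm N n]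
            ring
  · have hr1 : ‖Q⁻¹‖ < 1 := by
      rw [Real.norm_of_nonneg (by positivity)]
      exact inv_lt_one_of_one_lt₀ hQ
    have h1 : Summable (fun n : ℕ => Real.log (1 + x ^ N) * (Q⁻¹) ^ n +
        (N * Real.log q) * ((n : ℝ) ^ 1 * (Q⁻¹) ^ n)) := by
      apply Summable.add
      · exact (summable_geometric_of_norm_lt_one hr1).mul_left _
      · exact (summable_pow_mul_geometric_of_norm_lt_one 1 hr1).mul_left _
    apply Summable.of_nonneg_of_le _ _ h1
    · intro n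
      exact SS_term_nonneg hq hQ N hx (-n)
    · intro n
      have hqn : (1 : ℝ) ≤ q ^ n := one_le_pow₀ hq.le
      have h2 : 1 + (x / q ^ (-(n : ℤ))) ^ N ≤ (1 + x ^ N) * (q ^ n) ^ N := by
        rw [zpow_neg, zpow_natCast, div_inv_eq_mul, mul_pow]
        have h3 : (1 : ℝ) ≤ (q ^ n) ^ N := one_le_pow₀ hqn
        nlinarith [pow_nonneg hx N]
      have h4 : Real.log (1 + (x / q ^ (-(n : ℤ))) ^ N) ≤
          Real.log (1 + x ^ N) + N * Real.log q * n := by
        have h5 : 0 < 1 + (x / q ^ (-(n : ℤ))) ^ N := by positivity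
        refine (Real.log_le_log h5 h2).trans ?_
        rw [Real.log_mul (by positivity) (by positivity), Real.log_pow, Real.log_pow]
        apply le_of_eq
        ring
      calc Q ^ (-(n : ℤ)) * Real.log (1 + (x / q ^ (-(n : ℤ))) ^ N)
          ≤ Q ^ (-(n : ℤ)) * (Real.log (1 + x ^ N) + N * Real.log q * n) :=
            mul_le_mul_of_nonneg_left h4 (zpow_pos hQ0 _).le
        _ = _ := by
            rw [zpow_neg, zpow_natCast, ← inv_pow]
            ring

lemma SS_scale {q Q : ℝ} (hq : 1 < q) (hQ : 1 < Q) (N : ℕ) (k : ℤ) (x : ℝ) :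
    SS q Q N (q ^ k * x) = Q ^ k * SS q Q N x := by
  have hq0 : q ≠ 0 := by linarith
  have hQ0 : Q ≠ 0 := by linarith
  unfold SS
  rw [← (Equiv.addRight k).tsum_eq, ← tsum_mul_left]
  apply tsum_congr
  intro n
  simp only [Equiv.coe_addRight]
  rw [zpow_add₀ hQ0, zpow_add₀ hq0, mul_comm (q ^ n) (q ^ k),
    mul_div_mul_left _ _ (zpow_ne_zero k hq0)]
  ring

lemma SS_nonneg {q Q : ℝ} (hq : 1 < q) (hQ : 1 < Q) (N : ℕ) {x : ℝ} (hx : 0 ≤ x) :
    0 ≤ SS q Q N x := tsum_nonneg (fun n => SS_term_nonneg hq hQ N hx n)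

lemma SS_mono {q Q : ℝ} (hq : 1 < q) (hQ : 1 < Q) {N : ℕ} (hQN : Q < q ^ N) {x y : ℝ}
    (hx : 0 ≤ x) (hxy : x ≤ y) : SS q Q N x ≤ SS q Q N y := by
  unfold SS
  apply Summable.tsum_le_tsum _ (SS_summable hq hQ hQN hx) (SS_summable hq hQ hQN (hx.trans hxy))
  intro n
  have hq0 : 0 < q := by linarith
  have hQ0 : 0 < Q := by linarith
  apply mul_le_mul_of_nonneg_left _ (zpow_pos hQ0 n).le
  apply Real.log_le_log (by positivity)
  gcongr

instance nonempty_ne_zero : Nonempty {z : ℂ // z ≠ 0} := ⟨⟨1, one_ne_zero⟩⟩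

/-- A sequence of nonzero points that meets every nonempty open set. -/
noncomputable def dseq (j : ℕ) : ℂ := (TopologicalSpace.denseSeq {z : ℂ // z ≠ 0} j).1

lemma dseq_ne (j : ℕ) : dseq j ≠ 0 := (TopologicalSpace.denseSeq {z : ℂ // z ≠ 0} j).2

lemma dseq_dense (O : Set ℂ) (hO : IsOpen O) (hne : O.Nonempty) : ∃ j, dseq j ∈ O := by
  have h1 : (O ∩ {0}ᶜ).Nonempty := by
    have := (dense_compl_singleton (0 : ℂ)).inter_open_nonempty O hO hne
    exact this
  obtain ⟨z, hz1, hz2⟩ := h1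
  have h2 : IsOpen ((fun z : {z : ℂ // z ≠ 0} => z.1) ⁻¹' O) := hO.preimage continuous_subtype_val
  obtain ⟨y, hy1⟩ := (TopologicalSpace.denseRange_denseSeq {z : ℂ // z ≠ 0}).exists_mem_open
    h2 ⟨⟨z, hz2⟩, hz1⟩
  exact ⟨y, hy1⟩

/-- The poles `q^n d_j`. -/
noncomputable def aa (q : ℝ) (i : ℕ × ℤ) : ℂ := (q : ℂ) ^ i.2 * dseq i.1

/-- The masses. -/
noncomputable def cc (q Q : ℝ) (N : ℕ) (i : ℕ × ℤ) : ℝ :=
  (1 / 2) ^ i.1 / (1 + SS q Q N (1 / ‖dseq i.1‖)) * Q ^ i.2

lemma aa_ne {q : ℝ} (hq : 1 < q) (i : ℕ × ℤ) : aa q i ≠ 0 := by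
  have : (q : ℂ) ≠ 0 := by exact_mod_cast (by linarith : q ≠ 0)
  exact mul_ne_zero (zpow_ne_zero _ this) (dseq_ne _)

lemma cc_pos {q Q : ℝ} (hq : 1 < q) (hQ : 1 < Q) (N : ℕ) (i : ℕ × ℤ) : 0 < cc q Q N i := by
  have h1 := SS_nonneg hq hQ N (x := 1 / ‖dseq i.1‖) (by positivity)
  have hQ0 : 0 < Q := by linarith
  unfold cc
  apply mul_pos _ (zpow_pos hQ0 _)
  apply div_pos (by positivity)
  linarith

lemma norm_aa {q : ℝ} (hq : 1 < q) (i : ℕ × ℤ) : ‖aa q i‖ = q ^ i.2 * ‖dseq i.1‖ := by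
  have hq0 : 0 < q := by linarith
  unfold aa
  rw [norm_mul, norm_zpow, Complex.norm_real, Real.norm_of_nonneg hq0.le]

lemma term_eq {q Q : ℝ} (hq : 1 < q) (N : ℕ) (x : ℝ) (j : ℕ) (n : ℤ) :
    cc q Q N (j, n) * maj N (aa q) (j, n) x =
      (1 / 2) ^ j / (1 + SS q Q N (1 / ‖dseq j‖)) *
        (Q ^ n * Real.log (1 + ((x / ‖dseq j‖) / q ^ n) ^ N)) := by
  unfold cc maj
  rw [norm_aa hq]
  simp only
  rw [mul_assoc]
  congr 4
  rw [div_div, mul_comm (q ^ n)]

lemma inner_sum {q Q : ℝ} (hq : 1 < q) (N : ℕ) (x : ℝ) (j : ℕ) :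
    ∑' n : ℤ, cc q Q N (j, n) * maj N (aa q) (j, n) x =
      (1 / 2) ^ j / (1 + SS q Q N (1 / ‖dseq j‖)) * SS q Q N (x / ‖dseq j‖) := by
  simp_rw [term_eq hq]
  rw [tsum_mul_left]
  rfl

lemma inner_bound {q Q : ℝ} (hq : 1 < q) (hQ : 1 < Q) {N : ℕ} (hQN : Q < q ^ N) {x : ℝ}
    (hx : 0 ≤ x) (k : ℤ) (hk : x ≤ q ^ k) (j : ℕ) :
    (1 / 2) ^ j / (1 + SS q Q N (1 / ‖dseq j‖)) * SS q Q N (x / ‖dseq j‖) ≤
      Q ^ k * (1 / 2) ^ j := by
  have hd : 0 < ‖dseq j‖ := norm_pos_iff.mpr (dseq_ne j)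
  have hQ0 : 0 < Q := by linarith
  have h0 := SS_nonneg hq hQ N (x := 1 / ‖dseq j‖) (by positivity)
  have h1 : SS q Q N (x / ‖dseq j‖) ≤ Q ^ k * SS q Q N (1 / ‖dseq j‖) := by
    rw [← SS_scale hq hQ]
    apply SS_mono hq hQ hQN (by positivity)
    rw [mul_one_div]
    gcongr
  calc (1 / 2) ^ j / (1 + SS q Q N (1 / ‖dseq j‖)) * SS q Q N (x / ‖dseq j‖)
      ≤ (1 / 2) ^ j / (1 + SS q Q N (1 / ‖dseq j‖)) * (Q ^ k * SS q Q N (1 / ‖dseq j‖)) :=
        mul_le_mul_of_nonneg_left h1 (by positivity)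
    _ = Q ^ k * (1 / 2) ^ j * (SS q Q N (1 / ‖dseq j‖) / (1 + SS q Q N (1 / ‖dseq j‖))) := by
        ring
    _ ≤ Q ^ k * (1 / 2) ^ j * 1 := by
        apply mul_le_mul_of_nonneg_left _ (by positivity)
        rw [div_le_one (by linarith)]
        linarith
    _ = _ := mul_one _

lemma exists_zpow_ge {q : ℝ} (hq : 1 < q) {x : ℝ} (hx : 0 ≤ x) : ∃ k : ℤ, x ≤ q ^ k := by
  rcases hx.eq_or_lt with h | h
  · exact ⟨0, by rw [← h]; simp⟩
  · obtain ⟨k, hk⟩ := exists_mem_Ioc_zpow h hq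
    exact ⟨k + 1, hk.2⟩

lemma family_summable {q Q : ℝ} (hq : 1 < q) (hQ : 1 < Q) {N : ℕ} (hQN : Q < q ^ N) (x : ℝ)
    (hx : 0 ≤ x) : Summable (fun i : ℕ × ℤ => cc q Q N i * maj N (aa q) i x) := by
  obtain ⟨k, hk⟩ := exists_zpow_ge hq hx
  rw [summable_prod_of_nonneg]
  · constructor
    · intro j
      simp_rw [term_eq hq]
      apply Summable.mul_left
      exact SS_summable hq hQ hQN (by positivity)
    · simp_rw [inner_sum hq]
      apply Summable.of_nonneg_of_le _ (inner_bound hq hQ hQN hx k hk)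
      · exact (summable_geometric_of_lt_one (by norm_num) (by norm_num)).mul_left _
      · intro j
        have h0 := SS_nonneg hq hQ N (x := 1 / ‖dseq j‖) (by positivity)
        have h1 := SS_nonneg hq hQ N (x := x / ‖dseq j‖) (by positivity)
        positivity
  · intro i
    exact mul_nonneg (cc_pos hq hQ N i).le (maj_nonneg i hx)

lemma Bt_bound {q Q : ℝ} (hq : 1 < q) (hQ : 1 < Q) {N : ℕ} (hQN : Q < q ^ N) {x : ℝ}
    (hx : 0 ≤ x) (k : ℤ) (hk : x ≤ q ^ k) : Bt N (cc q Q N) (aa q) x ≤ 2 * Q ^ k := by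
  unfold Bt
  rw [(family_summable hq hQ hQN x hx).tsum_prod]
  simp_rw [inner_sum hq]
  have h1 : Summable (fun j : ℕ => Q ^ k * (1 / 2 : ℝ) ^ j) :=
    (summable_geometric_of_lt_one (by norm_num) (by norm_num)).mul_left _
  have h2 : ∑' j : ℕ, Q ^ k * (1 / 2 : ℝ) ^ j = 2 * Q ^ k := by
    rw [tsum_mul_left, tsum_geometric_of_lt_one (by norm_num) (by norm_num)]
    norm_num
    ring
  rw [← h2]
  apply Summable.tsum_le_tsum (inner_bound hq hQ hQN hx k hk) _ h1
  apply Summable.of_nonneg_of_le _ (inner_bound hq hQ hQN hx k hk) h1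
  intro j
  have h0 := SS_nonneg hq hQ N (x := 1 / ‖dseq j‖) (by positivity)
  have h1 := SS_nonneg hq hQ N (x := x / ‖dseq j‖) (by positivity)
  positivity

/-- The shift of the index set. -/
def shiftE : (ℕ × ℤ) ≃ (ℕ × ℤ) := Equiv.prodCongr (Equiv.refl ℕ) (Equiv.addRight (1 : ℤ))

/-- Sanity check of the definitions: on the whole cylinder `r = cos y` solves (1) for `l = 1`. -/
lemma lam_univ_le : lam Set.univ ≤ 1 := by
  apply sInf_le
  refine ⟨1, one_pos, by simp, fun ζ => Real.cos ζ.im, ⟨?_, ⟨1, ?_⟩, ?_, ?_⟩, 0, trivial, by simp⟩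
  · intro p _
    simp
  · intro p _
    exact Real.abs_cos_le_one _
  · intro p _
    have h0 : (fun ζ : ℂ => Real.exp (1 * ζ.re) * Real.cos ζ.im) = fun ζ => (Complex.exp ζ).re := by
      ext ζ
      rw [Complex.exp_re, one_mul]
    constructor
    · have h1 : ContDiff ℝ 2 (fun ζ : ℂ => Real.cos ζ.im) :=
        Real.contDiff_cos.comp Complex.imCLM.contDiff
      exact h1.contDiffAt
    · unfold Lop
      rw [h0]
      have h2 : InnerProductSpace.HarmonicAt (fun ζ => (Complex.exp ζ).re) p :=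
        (Complex.differentiable_exp.analyticAt p).harmonicAt_re
      have h3 := h2.2.self_of_nhds
      rw [h3]
      simp
  · intro q hq
    have := hq.1
    simp at this

/-- **Disproof of Q1.** For every `ρ > 0` and every `q > 1` there is `v ∈ U[ρ]` with
`v(qz) = q^ρ v(z)` (so that `v̂` is doubly periodic) which is minimal but has `λ(v) > ρ`; in fact
`H(v)` is empty and `λ(v) = +∞`. -/
theorem result (ρ : ℝ) (hρ : 0 < ρ) (q : ℝ) (hq : 1 < q) :
    ∃ v : ℂ → EReal, InU ρ v ∧ (∀ z : ℂ, v ((q : ℂ) * z) = ((q ^ ρ : ℝ) : EReal) * v z) ∧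
      IsMinimalIn ρ v ∧ (ρ : EReal) < lam (hatH v) ∧ harmonicSet v = ∅ := by
  set N : ℕ := ⌊ρ⌋₊ + 1 with hN
  have hN0 : N ≠ 0 := by omega
  have hρN : ρ < N := by
    rw [hN]
    push_cast
    exact Nat.lt_floor_add_one ρ
  have hq0 : 0 < q := by linarith
  set Q : ℝ := q ^ ρ with hQdef
  have hQ : 1 < Q := Real.one_lt_rpow hq hρ
  have hQ0 : 0 < Q := by linarith
  have hQN : Q < q ^ N := by
    rw [hQdef, ← Real.rpow_natCast]
    exact Real.rpow_lt_rpow_of_exponent_lt hq hρN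
  set v : ℂ → EReal := vv N (cc q Q N) (aa q) with hv
  have hc : ∀ i, 0 < cc q Q N i := cc_pos hq hQ N
  have ha : ∀ i, aa q i ≠ 0 := aa_ne hq
  have hsum : ∀ R : ℝ, 0 ≤ R → Summable (fun i => cc q Q N i * maj N (aa q) i R) :=
    fun R hR => family_summable hq hQ hQN R hR
  have hsub : SubharmonicOn v Set.univ := vv_subharmonic hN0 hc ha hsum
  have hv0 : v 0 = 0 := vv_zero hN0
  have hbound : ∀ z : ℂ, v z ≤ ((2 * Q * ‖z‖ ^ ρ : ℝ) : EReal) := by
    intro z
    by_cases hz : z = 0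
    · rw [hz, hv0]
      rw [norm_zero, Real.zero_rpow hρ.ne']
      simp
    · have hz0 : 0 < ‖z‖ := norm_pos_iff.mpr hz
      obtain ⟨k, hk1, hk2⟩ := exists_mem_Ioc_zpow hz0 hq
      refine (vv_le_Bt z).trans ?_
      rw [EReal.coe_le_coe_iff]
      refine (Bt_bound hq hQ hQN hz0.le (k + 1) hk2).trans ?_
      have h1 : Q ^ k ≤ ‖z‖ ^ ρ := by
        have h2 : Q ^ k = (q ^ k) ^ ρ := by
          rw [hQdef, ← Real.rpow_intCast, ← Real.rpow_intCast, ← Real.rpow_mul hq0.le,
            ← Real.rpow_mul hq0.le, mul_comm]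
        rw [h2]
        exact Real.rpow_le_rpow (zpow_pos hq0 k).le hk1.le hρ.le
      rw [zpow_add_one₀ hQ0.ne']
      nlinarith
  have hU : InU ρ v := ⟨hsub, hv0, 2 * Q, by positivity, hbound⟩
  have hH : harmonicSet v = ∅ := by
    rw [Set.eq_empty_iff_forall_notMem]
    rintro z ⟨u, _, hu⟩
    obtain ⟨O, hO1, hO2, hO3⟩ := eventually_nhds_iff.mp hu
    obtain ⟨j, hj⟩ := dseq_dense O hO2 ⟨z, hO3⟩
    have h1 := hO1 (dseq j) hj
    have h2 : v (dseq j) = ⊥ := by
      have h3 := vv_atom (N := N) hc ha (j, 0)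
      have h4 : aa q (j, 0) = dseq j := by simp [aa]
      rw [h4] at h3
      exact h3
    rw [h2] at h1
    exact EReal.bot_ne_coe _ h1
  refine ⟨v, hU, ?_, ⟨hU, ?_⟩, ?_, hH⟩
  · intro z
    apply vv_scale shiftE hq0 hQ0
    · rintro ⟨j, n⟩
      have hqC : (q : ℂ) ≠ 0 := by exact_mod_cast hq0.ne'
      simp only [shiftE, aa, Equiv.prodCongr_apply, Prod.map, Equiv.refl_apply,
        Equiv.coe_addRight]
      rw [zpow_add_one₀ hqC]
      ring
    · rintro ⟨j, n⟩
      simp only [shiftE, cc, Equiv.prodCongr_apply, Prod.map, Equiv.refl_apply,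
        Equiv.coe_addRight]
      rw [zpow_add_one₀ hQ0.ne']
      ring
  · rintro ε hε ⟨w, hw, hle⟩
    exact no_minorant hN0 hc ha hsum hε w hw.1 hw.2.1 hle
  · have h1 : hatH v = ∅ := by
      unfold hatH
      rw [hH]
      ext ζ
      simp
    rw [h1]
    have h2 : lam ∅ = ⊤ := by
      unfold lam
      have : {x : EReal | ∃ l : ℝ, 0 < l ∧ x = (l : EReal) ∧
          ∃ r : ℂ → ℝ, SolvesOne l ∅ r ∧ ∃ p ∈ (∅ : Set ℂ), r p ≠ 0} = ∅ := by
        ext x
        simp
      rw [this, sInf_empty]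
    rw [h2]
    exact EReal.coe_lt_top ρ

end Pool.Agent.Results.MP_784777_an.Main
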